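import Pool.Agent.W169.HF.Defs

set_option autoImplicit false

open Complex Metric

namespace Pool.Agent.W32.HF

open Pool.Agent.W169.HF

lemma fact_le_pow (k : ℕ) : k.factorial ≤ k ^ k := by
  induction k with
  | zero => simp
  | succ n ih =>
    rw [Nat.factorial_succ, pow_succ, mul_comm]
    exact Nat.mul_le_mul_right _ (ih.trans (Nat.pow_le_pow_left (Nat.le_succ n) n))

lemma two_fact (k : ℕ) : ((2 * k).factorial : ℝ) ≤ 4 ^ k * (k.factorial : ℝ) * (k : ℝ) ^ k := by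
  have h1 := Nat.add_choose_mul_factorial_mul_factorial k k
  have h2 := Nat.centralBinom_le_four_pow k
  rw [Nat.centralBinom_eq_two_mul_choose] at h2
  rw [← two_mul] at h1
  have h3 := fact_le_pow k
  have h4 : (2 * k).factorial ≤ 4 ^ k * k.factorial * k ^ k := by
    rw [← h1]
    exact Nat.mul_le_mul (Nat.mul_le_mul_right _ h2) h3
  exact_mod_cast h4

theorem der : S_DER := by
  intro f hf δ hδ
  obtain ⟨hd, hs⟩ := hf
  obtain ⟨K, hK, hb⟩ := hs δ hδ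
  refine ⟨K, hK, fun k z => ?_⟩
  rcases Nat.eq_zero_or_pos k with rfl | hk
  · simp only [mul_zero, iteratedDeriv_zero, Nat.factorial_zero, Nat.cast_one, mul_one, pow_zero]
    refine (hb z).trans (mul_le_mul_of_nonneg_left (Real.exp_le_exp.2 ?_) hK.le)
    have : 0 ≤ δ * ‖z‖ ^ 2 := by positivity
    linarith
  have hkr : (0 : ℝ) < k := by exact_mod_cast hk
  set r : ℝ := Real.sqrt (k / (2 * δ)) with hr
  have hr0 : 0 < r := Real.sqrt_pos.2 (by positivity)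
  have hr2 : r ^ 2 = k / (2 * δ) := Real.sq_sqrt (by positivity)
  have hC : ∀ w ∈ sphere z r, ‖f w‖ ≤ K * (Real.exp (2 * δ * ‖z‖ ^ 2) * Real.exp 1 ^ k) := by
    intro w hw
    refine (hb w).trans (mul_le_mul_of_nonneg_left ?_ hK.le)
    rw [← Real.exp_nat_mul, ← Real.exp_add]
    apply Real.exp_le_exp.2
    have h1 : ‖w‖ ≤ ‖z‖ + r := by
      have h2 : ‖w - z‖ = r := mem_sphere_iff_norm.1 hw
      calc ‖w‖ = ‖z + (w - z)‖ := by congr 1; ring
        _ ≤ ‖z‖ + ‖w - z‖ := norm_add_le _ _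
        _ = ‖z‖ + r := by rw [h2]
    have h3 : ‖w‖ ^ 2 ≤ 2 * ‖z‖ ^ 2 + 2 * r ^ 2 := by
      have h4 : ‖w‖ ^ 2 ≤ (‖z‖ + r) ^ 2 := pow_le_pow_left₀ (norm_nonneg _) h1 2
      nlinarith [sq_nonneg (‖z‖ - r)]
    have h5 : δ * (2 * r ^ 2) = k := by
      rw [hr2]; field_simp
    calc δ * ‖w‖ ^ 2 ≤ δ * (2 * ‖z‖ ^ 2 + 2 * r ^ 2) := mul_le_mul_of_nonneg_left h3 hδ.le
      _ = 2 * δ * ‖z‖ ^ 2 + δ * (2 * r ^ 2) := by ring
      _ = 2 * δ * ‖z‖ ^ 2 + k * 1 := by rw [h5, mul_one]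
  have hcau := Complex.norm_iteratedDeriv_le_of_forall_mem_sphere_norm_le (2 * k) hr0
    (hd.diffContOnCl : DiffContOnCl ℂ f (ball z r)) hC
  refine hcau.trans ?_
  rw [pow_mul, hr2, div_le_iff₀ (by positivity)]
  set X : ℝ := Real.exp (2 * δ * ‖z‖ ^ 2) with hX
  have hX0 : 0 < X := Real.exp_pos _
  have he : Real.exp 1 ^ k * 8 ^ k ≤ 30 ^ k := by
    rw [← mul_pow]
    apply pow_le_pow_left₀ (by positivity)
    have := Real.exp_one_lt_d9
    linarith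
  have h6 : (30 * δ) ^ k * ((k : ℝ) / (2 * δ)) ^ k = 30 ^ k * (k : ℝ) ^ k / 2 ^ k := by
    rw [div_pow, mul_pow, mul_pow]
    field_simp
  have h7 : (8 : ℝ) ^ k = 4 ^ k * 2 ^ k := by rw [← mul_pow]; norm_num
  calc ((2 * k).factorial : ℝ) * (K * (X * Real.exp 1 ^ k))
      ≤ (4 ^ k * (k.factorial : ℝ) * (k : ℝ) ^ k) * (K * (X * Real.exp 1 ^ k)) :=
        mul_le_mul_of_nonneg_right (two_fact k) (by positivity)
    _ = (K * (k.factorial : ℝ) * X * (k : ℝ) ^ k / 2 ^ k) * (Real.exp 1 ^ k * 8 ^ k) := by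
        rw [h7]; field_simp
    _ ≤ (K * (k.factorial : ℝ) * X * (k : ℝ) ^ k / 2 ^ k) * 30 ^ k :=
        mul_le_mul_of_nonneg_left he (by positivity)
    _ = K * (k.factorial : ℝ) * ((30 * δ) ^ k * ((k : ℝ) / (2 * δ)) ^ k) * X := by
        rw [h6]; ring
    _ = K * (k.factorial : ℝ) * (30 * δ) ^ k * X * ((k : ℝ) / (2 * δ)) ^ k := by ring

end Pool.Agent.W32.HF
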